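import Pool.Agent.H31.DPD.Targets
import Pool.Agent.H91.LF.Basic

/-!
# Row DC of the board dpd_modules: the finite form of the decoupling
-/

set_option autoImplicit false

open Finset Filter Topology

namespace Pool.Agent.H61.DPD

open Pool.Agent.H91.LF
open Pool.Agent.H31.DP
open Pool.Agent.H31.DPD
open Pool.Agent.H24.T2 (Pset)

theorem abs_FF_le {l : ℕ} (h : Fin l → ℕ) (p : ℕ) (y : ℤ) : |FF h p y| ≤ 1 := by
  unfold FF
  rw [Finset.abs_prod]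
  exact Finset.prod_le_one (fun _ _ => abs_nonneg _) (fun _ _ => abs_lz_le _)

theorem abs_GC_le {l d : ℕ} (h : Fin l → ℕ) (p : ℕ) (s : Fin d → ℤ) (y : ℤ) :
    |GC h p s y| ≤ 1 := by
  unfold GC
  rw [Finset.abs_prod]
  exact Finset.prod_le_one (fun _ _ => abs_nonneg _) (fun _ _ => abs_FF_le _ _ _)

theorem ind_le (P : Prop) : |ind P| ≤ 1 := by
  unfold ind
  split_ifs <;> simp

theorem bdd_bal {Ω : Type*} (p : ℕ) (φ : Ω → ℤ) : Bdd (fun ω => bal p (φ ω)) := by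
  refine ⟨(p : ℝ) + 1, fun ω => ?_⟩
  unfold bal
  have h1 := ind_le ((p : ℤ) ∣ φ ω)
  have hp : (0 : ℝ) ≤ p := Nat.cast_nonneg p
  have h2 : |(p : ℝ) * ind ((p : ℤ) ∣ φ ω)| ≤ p := by
    rw [abs_mul, abs_of_nonneg hp]
    exact mul_le_of_le_one_right hp h1
  have h3 := abs_sub ((p : ℝ) * ind ((p : ℤ) ∣ φ ω)) 1
  rw [abs_one] at h3
  linarith

theorem bdd_dc {l d : ℕ} (h : Fin l → ℕ) (p : ℕ) : Bdd (dc (d := d) h p) := by
  have h1 : Bdd (fun ω : Fin (d + 2) → ℤ => (p : ℝ) ^ d * ind (∀ i : Fin d, (p : ℤ) ∣ par ω i)) :=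
    bdd_mul (bdd_const _) ⟨1, fun ω => ind_le _⟩
  have h2 : Bdd (fun ω : Fin (d + 2) → ℤ => bal p (ω 0) * bal p (ω 1)) :=
    bdd_mul (bdd_bal p _) (bdd_bal p _)
  have h3 : Bdd (fun ω : Fin (d + 2) → ℤ => GC h p (par ω) (ω 0) * GC h p (par ω) (ω 1)) :=
    bdd_mul ⟨1, fun ω => abs_GC_le _ _ _ _⟩ ⟨1, fun ω => abs_GC_le _ _ _ _⟩
  exact bdd_mul h1 (bdd_mul h2 h3)

theorem avc_sum {ι : Type*} (d x y : ℕ) (S : Finset ι) (f : ι → (Fin (d + 2) → ℤ) → ℝ) :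
    avc d x y (fun ω => ∑ i ∈ S, f i ω) = ∑ i ∈ S, avc d x y (f i) := by
  unfold avc
  rw [← Finset.sum_div, Finset.sum_comm]
  congr 1
  refine Finset.sum_congr rfl fun M _ => ?_
  rw [← Finset.mul_sum, ← Finset.sum_div, Finset.sum_comm]

theorem pf_DC (hMD : P_MD) (hUM : P_UM) : P_DC := by
  obtain ⟨c₀, hc₀, hMD⟩ := hMD
  refine ⟨c₀, hc₀, ?_⟩
  intro d l h θ m₀ hθ
  by_contra hcon
  push Not at hcon
  choose X Y hX hXY hbad using fun j : ℕ => hcon (j + m₀ + 1) (j + 1)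
  have htend : Tendsto (fun j => Real.log ((Y j : ℝ) / X j)) atTop atTop := by
    refine Real.tendsto_log_atTop.comp ?_
    refine tendsto_atTop_mono (fun j => ?_) tendsto_natCast_atTop_atTop
    have hxR : (0 : ℝ) < X j := by exact_mod_cast hX j
    rw [le_div_iff₀ hxR]
    have h1 : (((j + 1) * X j : ℕ) : ℝ) ≤ (Y j : ℝ) := by exact_mod_cast hXY j
    push_cast at h1
    nlinarith
  obtain ⟨M, hM⟩ := hUM d X Y hX htend
  obtain ⟨m, hm, hcard, hsum⟩ := hMD d l h M (θ / 2) (max m₀ 1) (by positivity)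
  have hm1 : 1 ≤ m := (le_max_right _ _).trans hm
  have hmR : (0 : ℝ) < m := by exact_mod_cast hm1
  have hc : (0 : ℝ) < ((Pset 1 m).card : ℝ) := lt_of_lt_of_le (by positivity) hcard
  have hb : ∀ p ∈ Pset 1 m, Bdd (dc (d := d) h p) := fun p _ => bdd_dc h p
  have h1 : θ * (Pset 1 m).card ≤ M.E (fun ω => ∑ p ∈ Pset 1 m, dc h p ω) := by
    refine hM _ _ (bdd_sum _ _ hb) ?_
    filter_upwards [eventually_ge_atTop m] with j hj
    rw [avc_sum]
    exact (hbad j m ((le_max_left _ _).trans hm) (by omega) hcard).le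
  rw [M.E_sum _ _ hb] at h1
  have h2 : ∑ p ∈ Pset 1 m, M.E (dc (d := d) h p) ≤ θ / 2 * (Pset 1 m).card :=
    (Finset.sum_le_sum fun p _ => le_abs_self _).trans hsum
  nlinarith

end Pool.Agent.H61.DPD
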