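import Pool.Agent.H31.DPD.Targets
import Pool.Agent.H33.DP.MK

/-!
# Row MK of the board dpd_modules: most scales have a small defect
-/

set_option autoImplicit false

open Finset

namespace Pool.Agent.H61.DPD

open Pool.Agent.H31.DP
open Pool.Agent.H31.DPD
open Pool.Agent.H24.T2 (Pset)

theorem mk_DDc_nonneg (d : ℕ) {l : ℕ} (h : Fin l → ℕ) (p M : ℕ) : 0 ≤ DDc d h p M :=
  mul_nonneg (by positivity) (Finset.sum_nonneg fun _ _ => sq_nonneg _)

theorem pf_MK (hOB : P_OB) (hID : P_ID) (hDC : P_DC) : P_MK := by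
  obtain ⟨c₀, hc₀, hDC⟩ := hDC
  refine ⟨c₀, hc₀, ?_⟩
  intro d l h θ ρ m₀ hθ hρ
  have h3d : (0 : ℝ) < 3 ^ (d + 2) := by positivity
  obtain ⟨m₁, K, hK⟩ := hDC d l h (θ * ρ / (4 * 3 ^ (d + 2))) (max m₀ 1) (by positivity)
  refine ⟨m₁, max K 3, ?_⟩
  intro x y hx hxy
  have hKx : K * x ≤ y := (Nat.mul_le_mul_right x (le_max_left K 3)).trans hxy
  have h3x : 3 * x ≤ y := (Nat.mul_le_mul_right x (le_max_right K 3)).trans hxy
  obtain ⟨m, hm0, hm1, hcard, hS⟩ := hK x y hx hKx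
  refine ⟨m, (le_max_left _ _).trans hm0, hm1, hcard, ?_⟩
  have hm : 1 ≤ m := (le_max_right _ _).trans hm0
  have hmR : (0 : ℝ) < m := by exact_mod_cast hm
  have hc : (0 : ℝ) < ((Pset 1 m).card : ℝ) := lt_of_lt_of_le (by positivity) hcard
  set c : ℝ := ((Pset 1 m).card : ℝ) with hcdef
  have hxR : (0 : ℝ) < x := by exact_mod_cast hx
  have hx1 : (1 : ℝ) ≤ x := by exact_mod_cast hx
  have hyx : (3 : ℝ) ≤ (y : ℝ) / x := by
    rw [le_div_iff₀ hxR]
    exact_mod_cast h3x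
  have hlog : 1 ≤ Real.log ((y : ℝ) / x) := by
    rw [Real.le_log_iff_exp_le (by linarith)]
    exact (Real.exp_one_lt_d9.le.trans (by norm_num)).trans hyx
  set L : ℝ := ∑ M ∈ Finset.Icc x y, (1 / (M : ℝ)) with hLdef
  have hLle : L ≤ 2 * Real.log ((y : ℝ) / x) := by
    obtain ⟨k, rfl⟩ := Nat.exists_eq_add_of_le (show x ≤ y by omega)
    have h1 := Pool.Agent.H33.DP.mk_harm x hx k
    have h2 : 1 / (x : ℝ) ≤ 1 := by
      rw [div_le_one hxR]
      exact hx1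
    linarith
  have hL0 : 0 < L := by
    refine Finset.sum_pos (fun M hM => ?_) ⟨x, Finset.mem_Icc.2 ⟨le_rfl, by omega⟩⟩
    have : (0 : ℝ) < M := by exact_mod_cast (lt_of_lt_of_le hx (Finset.mem_Icc.1 hM).1)
    positivity
  -- the sum of the defects
  have hpP : ∀ p ∈ Pset 1 m, 0 < p := fun p hp => by
    unfold Pset at hp
    exact (Finset.mem_filter.1 hp).2.1.pos
  have hsum : ∑ p ∈ Pset 1 m, avc d x y (dc h p) =
      (∑ M ∈ Finset.Icc x y, (1 / (M : ℝ)) *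
        ((∑ p ∈ Pset 1 m, DDc d h p M) / ((Oc d M).card : ℝ))) / L := by
    unfold avc
    rw [← Finset.sum_div, Finset.sum_comm]
    congr 1
    refine Finset.sum_congr rfl fun M _ => ?_
    rw [← Finset.mul_sum, ← Finset.sum_div]
    congr 2
    exact Finset.sum_congr rfl fun p hp => hID d l h p M (hpP p hp)
  rw [hsum, div_le_iff₀ hL0] at hS
  set bad := (Finset.Icc x y).filter (fun M : ℕ =>
    θ * c * (M : ℝ) ^ (d + 2) < ∑ p ∈ Pset 1 m, DDc d h p M) with hbad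
  have hDn : ∀ M : ℕ, 0 ≤ ∑ p ∈ Pset 1 m, DDc d h p M := fun M =>
    Finset.sum_nonneg fun p _ => mk_DDc_nonneg d h p M
  have h1 : (∑ M ∈ bad, (1 / (M : ℝ))) * (θ * c / 3 ^ (d + 2)) ≤
      ∑ M ∈ Finset.Icc x y, (1 / (M : ℝ)) *
        ((∑ p ∈ Pset 1 m, DDc d h p M) / ((Oc d M).card : ℝ)) := by
    rw [Finset.sum_mul]
    refine (Finset.sum_le_sum (fun M hM => ?_)).trans
      (Finset.sum_le_sum_of_subset_of_nonneg (Finset.filter_subset _ _) (fun M _ _ => ?_))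
    · rw [hbad, Finset.mem_filter, Finset.mem_Icc] at hM
      obtain ⟨⟨hM1, hM2⟩, hM3⟩ := hM
      have hM0 : 0 < M := lt_of_lt_of_le hx hM1
      have hMR : (0 : ℝ) < M := by exact_mod_cast hM0
      obtain ⟨c1, hc1, hcM⟩ := (hOB d).1
      obtain ⟨hO1, hO2⟩ := hcM M hM0
      have hO : (0 : ℝ) < ((Oc d M).card : ℝ) := lt_of_lt_of_le (by positivity) hO1
      refine mul_le_mul_of_nonneg_left ?_ (by positivity)
      rw [le_div_iff₀ hO]
      have h2 : θ * c / 3 ^ (d + 2) * ((Oc d M).card : ℝ) ≤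
          θ * c / 3 ^ (d + 2) * (3 * (M : ℝ)) ^ (d + 2) :=
        mul_le_mul_of_nonneg_left hO2 (by positivity)
      have h3 : θ * c / 3 ^ (d + 2) * (3 * (M : ℝ)) ^ (d + 2) = θ * c * (M : ℝ) ^ (d + 2) := by
        rw [mul_pow]
        field_simp
      linarith
    · exact mul_nonneg (by positivity) (div_nonneg (hDn M) (Nat.cast_nonneg _))
  have h2 : (∑ M ∈ bad, (1 / (M : ℝ))) * (θ * c / 3 ^ (d + 2)) ≤
      θ * ρ / (4 * 3 ^ (d + 2)) * c * L := h1.trans hS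
  have hθc : 0 < θ * c / 3 ^ (d + 2) := by positivity
  have h3 : θ * ρ / (4 * 3 ^ (d + 2)) * c * L ≤
      (ρ * Real.log ((y : ℝ) / x)) * (θ * c / 3 ^ (d + 2)) := by
    have h4 : θ * ρ / (4 * 3 ^ (d + 2)) * c * L ≤
        θ * ρ / (4 * 3 ^ (d + 2)) * c * (2 * Real.log ((y : ℝ) / x)) :=
      mul_le_mul_of_nonneg_left hLle (by positivity)
    have h5 : θ * ρ / (4 * 3 ^ (d + 2)) * c * (2 * Real.log ((y : ℝ) / x)) =
        (ρ * Real.log ((y : ℝ) / x)) * (θ * c / 3 ^ (d + 2)) / 2 := by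
      field_simp
      ring
    have h6 : 0 ≤ (ρ * Real.log ((y : ℝ) / x)) * (θ * c / 3 ^ (d + 2)) := by positivity
    linarith
  exact le_of_mul_le_mul_right (h2.trans h3) hθc

end Pool.Agent.H61.DPD
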